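import Pool.Agent.U62.CL.PS

/-!
# The covariances on the critical line
-/

set_option autoImplicit false

namespace Pool.Agent.U62.CL

open Finset Filter Topology

theorem slow_cos (τ : ℝ) : Slow (fun v => v * Real.cos (τ * v)) (fun v => Real.cos (τ * v) - v * (τ * Real.sin (τ * v)))
    (1 + |τ|) where
  B0 := by positivity
  der := by
    intro v
    have h1 : HasDerivAt (fun v : ℝ => τ * v) τ v := by
      simpa using (hasDerivAt_id v).const_mul τ
    have h2 := (hasDerivAt_id v).mul h1.cos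
    refine h2.congr_deriv ?_
    simp only [id]
    ring
  b0 := by
    intro v hv
    rw [abs_mul, abs_of_nonneg hv]
    have h1 := Real.abs_cos_le_one (τ * v)
    have h2 : 0 ≤ |τ| := abs_nonneg τ
    nlinarith [abs_nonneg (Real.cos (τ * v)), mul_nonneg h2 hv]
  b1 := by
    intro v hv
    have h1 := Real.abs_cos_le_one (τ * v)
    have h3 := Real.abs_sin_le_one (τ * v)
    have h2 : 0 ≤ |τ| := abs_nonneg τ
    refine (abs_sub _ _).trans ?_
    rw [abs_mul, abs_mul, abs_of_nonneg hv]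
    have h4 : v * (|τ| * |Real.sin (τ * v)|) ≤ v * (|τ| * 1) :=
      mul_le_mul_of_nonneg_left (mul_le_mul_of_nonneg_left h3 h2) hv
    nlinarith [mul_nonneg h2 hv]

theorem slow_sin (τ : ℝ) : Slow (fun v => v * Real.sin (τ * v)) (fun v => Real.sin (τ * v) + v * (τ * Real.cos (τ * v)))
    (1 + |τ|) where
  B0 := by positivity
  der := by
    intro v
    have h1 : HasDerivAt (fun v : ℝ => τ * v) τ v := by
      simpa using (hasDerivAt_id v).const_mul τ
    have h2 := (hasDerivAt_id v).mul h1.sin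
    refine h2.congr_deriv ?_
    simp only [id]
    ring
  b0 := by
    intro v hv
    rw [abs_mul, abs_of_nonneg hv]
    have h1 := Real.abs_sin_le_one (τ * v)
    have h2 : 0 ≤ |τ| := abs_nonneg τ
    nlinarith [abs_nonneg (Real.sin (τ * v)), mul_nonneg h2 hv]
  b1 := by
    intro v hv
    have h1 := Real.abs_cos_le_one (τ * v)
    have h3 := Real.abs_sin_le_one (τ * v)
    have h2 : 0 ≤ |τ| := abs_nonneg τ
    refine (abs_add_le _ _).trans ?_
    rw [abs_mul, abs_mul, abs_of_nonneg hv]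
    have h4 : v * (|τ| * |Real.cos (τ * v)|) ≤ v * (|τ| * 1) :=
      mul_le_mul_of_nonneg_left (mul_le_mul_of_nonneg_left h1 h2) hv
    nlinarith [mul_nonneg h2 hv]

theorem slow_id : Slow (fun v => v) (fun _ => 1) 1 where
  B0 := by norm_num
  der := fun v => hasDerivAt_id v
  b0 := by
    intro v hv
    rw [abs_of_nonneg hv]
    linarith
  b1 := by
    intro v hv
    rw [abs_one]
    linarith

/-- The primes up to `T`. -/
def PT (T : ℕ) : Finset ℕ := (range (T + 1)).filter Nat.Prime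

theorem log_large (a b : ℝ) (ha : 0 ≤ a) (hb : 0 ≤ b) {ε : ℝ} (hε : 0 < ε) :
    ∃ N0 : ℕ, ∀ N : ℕ, N0 ≤ N → a * Real.log N + b ≤ ε * Real.log N ^ 2 := by
  have h3 := (Real.tendsto_log_atTop.comp tendsto_natCast_atTop_atTop).eventually_ge_atTop (1 + (a + b) / ε)
  obtain ⟨N0, hN0⟩ := eventually_atTop.1 h3
  refine ⟨N0, fun N hN => ?_⟩
  have h := hN0 N hN
  rw [Function.comp_apply] at h
  have h0 : 0 ≤ (a + b) / ε := by positivity
  have h1 : (a + b) / ε ≤ Real.log N := by linarith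
  rw [div_le_iff₀ hε] at h1
  have h2 : 1 ≤ Real.log N := by linarith
  nlinarith

theorem diag {ε : ℝ} (hε : 0 < ε) : ∃ N0 : ℕ, ∀ N : ℕ, N0 ≤ N →
    |∑ p ∈ PT N, Real.log p * (Real.log p / p) - Real.log N ^ 2 / 2| ≤ ε * Real.log N ^ 2 := by
  have hH : ∀ v : ℝ, HasDerivAt (fun v : ℝ => v ^ 2 / 2) v v := by
    intro v
    have := (hasDerivAt_pow 2 v).div_const 2
    refine this.congr_deriv ?_
    simp
  exact slow_id.main hH hε

theorem osc_cos {τ : ℝ} (hτ : τ ≠ 0) {ε : ℝ} (hε : 0 < ε) : ∃ N0 : ℕ, ∀ N : ℕ, N0 ≤ N →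
    |∑ p ∈ PT N, Real.log p * (Real.log p * Real.cos (τ * Real.log p) / p)| ≤ ε * Real.log N ^ 2 := by
  have hH : ∀ v : ℝ, HasDerivAt (fun v : ℝ => v * Real.sin (τ * v) / τ + Real.cos (τ * v) / τ ^ 2)
      (v * Real.cos (τ * v)) v := by
    intro v
    have h1 : HasDerivAt (fun v : ℝ => τ * v) τ v := by
      simpa using (hasDerivAt_id v).const_mul τ
    have h2 := (((hasDerivAt_id v).mul h1.sin).div_const τ).add (h1.cos.div_const (τ ^ 2))
    refine h2.congr_deriv ?_
    simp only [id]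
    field_simp
    ring
  obtain ⟨N1, hN1⟩ := (slow_cos τ).main hH (half_pos hε)
  obtain ⟨N2, hN2⟩ := log_large (1 / |τ|) (1 / τ ^ 2) (by positivity) (by positivity) (half_pos hε)
  refine ⟨max (max N1 N2) 1, fun N hN => ?_⟩
  have h1 := hN1 N ((le_max_left _ _).trans ((le_max_left _ _).trans hN))
  have h2 := hN2 N ((le_max_right _ _).trans ((le_max_left _ _).trans hN))
  have hN3 : 1 ≤ N := (le_max_right _ _).trans hN
  have hl : 0 ≤ Real.log N := Real.log_nonneg (by exact_mod_cast hN3)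
  have h3 : |Real.log N * Real.sin (τ * Real.log N) / τ + Real.cos (τ * Real.log N) / τ ^ 2| ≤
      1 / |τ| * Real.log N + 1 / τ ^ 2 := by
    refine (abs_add_le _ _).trans ?_
    rw [abs_div, abs_div, abs_mul, abs_of_nonneg hl, abs_of_pos (by positivity : 0 < τ ^ 2)]
    have hτ0 : 0 < |τ| := abs_pos.2 hτ
    refine add_le_add ?_ (div_le_div_of_nonneg_right (Real.abs_cos_le_one _) (by positivity))
    rw [div_mul_eq_mul_div, one_mul]
    refine div_le_div_of_nonneg_right ?_ hτ0.le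
    have := Real.abs_sin_le_one (τ * Real.log N)
    nlinarith
  have e : (∑ p ∈ PT N, Real.log p * (Real.log p * Real.cos (τ * Real.log p) / p)) =
      (∑ p ∈ PT N, Real.log p * (Real.log p * Real.cos (τ * Real.log p) / p) -
        (Real.log N * Real.sin (τ * Real.log N) / τ + Real.cos (τ * Real.log N) / τ ^ 2)) +
        (Real.log N * Real.sin (τ * Real.log N) / τ + Real.cos (τ * Real.log N) / τ ^ 2) := by ring
  rw [e]
  refine (abs_add_le _ _).trans ?_
  have h4 : |∑ p ∈ PT N, Real.log p * (Real.log p * Real.cos (τ * Real.log p) / p) -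
        (Real.log N * Real.sin (τ * Real.log N) / τ + Real.cos (τ * Real.log N) / τ ^ 2)| ≤ ε / 2 * Real.log N ^ 2 := h1
  linarith

theorem osc_sin (τ : ℝ) {ε : ℝ} (hε : 0 < ε) : ∃ N0 : ℕ, ∀ N : ℕ, N0 ≤ N →
    |∑ p ∈ PT N, Real.log p * (Real.log p * Real.sin (τ * Real.log p) / p)| ≤ ε * Real.log N ^ 2 := by
  by_cases hτ : τ = 0
  · refine ⟨0, fun N _ => ?_⟩
    subst hτ
    simp only [zero_mul, Real.sin_zero, mul_zero, zero_div, Finset.sum_const_zero, abs_zero]
    positivity
  have hH : ∀ v : ℝ, HasDerivAt (fun v : ℝ => -(v * Real.cos (τ * v)) / τ + Real.sin (τ * v) / τ ^ 2)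
      (v * Real.sin (τ * v)) v := by
    intro v
    have h1 : HasDerivAt (fun v : ℝ => τ * v) τ v := by
      simpa using (hasDerivAt_id v).const_mul τ
    have h2 := (((hasDerivAt_id v).mul h1.cos).neg.div_const τ).add (h1.sin.div_const (τ ^ 2))
    refine h2.congr_deriv ?_
    simp only [id]
    field_simp
    ring
  obtain ⟨N1, hN1⟩ := (slow_sin τ).main hH (half_pos hε)
  obtain ⟨N2, hN2⟩ := log_large (1 / |τ|) (1 / τ ^ 2) (by positivity) (by positivity) (half_pos hε)
  refine ⟨max (max N1 N2) 1, fun N hN => ?_⟩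
  have h1 := hN1 N ((le_max_left _ _).trans ((le_max_left _ _).trans hN))
  have h2 := hN2 N ((le_max_right _ _).trans ((le_max_left _ _).trans hN))
  have hN3 : 1 ≤ N := (le_max_right _ _).trans hN
  have hl : 0 ≤ Real.log N := Real.log_nonneg (by exact_mod_cast hN3)
  have h3 : |-(Real.log N * Real.cos (τ * Real.log N)) / τ + Real.sin (τ * Real.log N) / τ ^ 2| ≤
      1 / |τ| * Real.log N + 1 / τ ^ 2 := by
    refine (abs_add_le _ _).trans ?_
    rw [abs_div, abs_div, abs_neg, abs_mul, abs_of_nonneg hl, abs_of_pos (by positivity : 0 < τ ^ 2)]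
    have hτ0 : 0 < |τ| := abs_pos.2 hτ
    refine add_le_add ?_ (div_le_div_of_nonneg_right (Real.abs_sin_le_one _) (by positivity))
    rw [div_mul_eq_mul_div, one_mul]
    refine div_le_div_of_nonneg_right ?_ hτ0.le
    have := Real.abs_cos_le_one (τ * Real.log N)
    nlinarith
  have e : (∑ p ∈ PT N, Real.log p * (Real.log p * Real.sin (τ * Real.log p) / p)) =
      (∑ p ∈ PT N, Real.log p * (Real.log p * Real.sin (τ * Real.log p) / p) -
        (-(Real.log N * Real.cos (τ * Real.log N)) / τ + Real.sin (τ * Real.log N) / τ ^ 2)) +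
        (-(Real.log N * Real.cos (τ * Real.log N)) / τ + Real.sin (τ * Real.log N) / τ ^ 2) := by ring
  rw [e]
  refine (abs_add_le _ _).trans ?_
  have h4 : |∑ p ∈ PT N, Real.log p * (Real.log p * Real.sin (τ * Real.log p) / p) -
        (-(Real.log N * Real.cos (τ * Real.log N)) / τ + Real.sin (τ * Real.log N) / τ ^ 2)| ≤ ε / 2 * Real.log N ^ 2 := h1
  linarith

/-- The cosine sums for all frequencies. -/
theorem osc_cos' (τ : ℝ) {ε : ℝ} (hε : 0 < ε) : ∃ N0 : ℕ, ∀ N : ℕ, N0 ≤ N →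
    |∑ p ∈ PT N, Real.log p * (Real.log p * Real.cos (τ * Real.log p) / p) - (if τ = 0 then Real.log N ^ 2 / 2 else 0)| ≤
      ε * Real.log N ^ 2 := by
  by_cases hτ : τ = 0
  · obtain ⟨N0, hN0⟩ := diag hε
    refine ⟨N0, fun N hN => ?_⟩
    rw [if_pos hτ]
    refine le_trans (le_of_eq ?_) (hN0 N hN)
    subst hτ
    simp
  · obtain ⟨N0, hN0⟩ := osc_cos hτ hε
    refine ⟨N0, fun N hN => ?_⟩
    rw [if_neg hτ, sub_zero]
    exact hN0 N hN

end Pool.Agent.U62.CL
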