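import Pool.Agent.U62.CL.Ix
import Pool.Agent.U62.CL.Osc

/-!
# The normal law on the critical line
-/

set_option autoImplicit false
set_option linter.unusedSectionVars false

namespace Pool.Agent.U62.CL

open Finset Filter Topology Pool.Agent.Y722.HS Pool.Agent.X280.BP Pool.Agent.X280.HG MeasureTheory ProbabilityTheory

variable {ι : Type} [Fintype ι] [DecidableEq ι]

/-- The weights: the halves of the real and the imaginary parts of `log p / p ^ (1/2 + i t)`. -/
noncomputable def ww (t : ℝ) (b : Bool) (p : ℕ) : ℝ :=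
  Real.log p / (2 * √p) * (if b then Real.cos (t * Real.log p) else -Real.sin (t * Real.log p))

theorem log_le_sqrt {p : ℕ} (hp : 1 ≤ p) : Real.log p ≤ 2 * √p := by
  have hp1 : (1 : ℝ) ≤ p := by exact_mod_cast hp
  have hs : 0 < √(p : ℝ) := Real.sqrt_pos.2 (by linarith)
  have h := Real.log_le_sub_one_of_pos hs
  rw [Real.log_sqrt (by linarith)] at h
  linarith

theorem ww_abs (t : ℝ) (b : Bool) {p : ℕ} (hp : 1 ≤ p) : |ww t b p| ≤ 1 := by
  have hp1 : (1 : ℝ) ≤ p := by exact_mod_cast hp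
  have hs : 0 < √(p : ℝ) := Real.sqrt_pos.2 (by linarith)
  have hl : 0 ≤ Real.log p := Real.log_nonneg hp1
  unfold ww
  rw [abs_mul, abs_of_nonneg (by positivity : 0 ≤ Real.log p / (2 * √p))]
  have h1 : Real.log p / (2 * √p) ≤ 1 := by
    rw [div_le_one (by positivity)]
    exact log_le_sqrt hp
  have h2 : |(if b then Real.cos (t * Real.log p) else -Real.sin (t * Real.log p))| ≤ 1 := by
    split_ifs
    · exact Real.abs_cos_le_one _
    · rw [abs_neg]
      exact Real.abs_sin_le_one _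
  calc Real.log p / (2 * √p) * |(if b then Real.cos (t * Real.log p) else -Real.sin (t * Real.log p))| ≤ 1 * 1 :=
        mul_le_mul h1 h2 (abs_nonneg _) (by norm_num)
    _ = 1 := one_mul 1

/-- The sums of cosines and of sines. -/
noncomputable def CC (N : ℕ) (τ : ℝ) : ℝ := ∑ p ∈ PT N, Real.log p * (Real.log p * Real.cos (τ * Real.log p) / p)

noncomputable def SS (N : ℕ) (τ : ℝ) : ℝ := ∑ p ∈ PT N, Real.log p * (Real.log p * Real.sin (τ * Real.log p) / p)

theorem sq_half (p : ℕ) : (Real.log p / (2 * √(p : ℝ))) * (Real.log p / (2 * √(p : ℝ))) = Real.log p * Real.log p / (4 * p) := by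
  rw [div_mul_div_comm]
  congr 1
  have := Real.mul_self_sqrt (Nat.cast_nonneg p : (0 : ℝ) ≤ p)
  linarith

theorem ww_cc (N : ℕ) (t s : ℝ) : ∑ p ∈ PT N, ww t true p * ww s true p = (CC N (t - s) + CC N (t + s)) / 8 := by
  unfold CC
  rw [← Finset.sum_add_distrib, Finset.sum_div]
  refine Finset.sum_congr rfl fun p _ => ?_
  unfold ww
  simp only [if_true]
  rw [mul_mul_mul_comm, sq_half, sub_mul, add_mul, Real.cos_sub, Real.cos_add]
  ring

theorem ww_ss (N : ℕ) (t s : ℝ) : ∑ p ∈ PT N, ww t false p * ww s false p = (CC N (t - s) - CC N (t + s)) / 8 := by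
  unfold CC
  rw [← Finset.sum_sub_distrib, Finset.sum_div]
  refine Finset.sum_congr rfl fun p _ => ?_
  unfold ww
  simp only [Bool.false_eq_true, if_false]
  rw [mul_mul_mul_comm, sq_half, sub_mul, add_mul, Real.cos_sub, Real.cos_add]
  ring

theorem ww_cs (N : ℕ) (t s : ℝ) : ∑ p ∈ PT N, ww t true p * ww s false p = (SS N (t - s) - SS N (t + s)) / 8 := by
  unfold SS
  rw [← Finset.sum_sub_distrib, Finset.sum_div]
  refine Finset.sum_congr rfl fun p _ => ?_
  unfold ww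
  simp only [Bool.false_eq_true, if_false, if_true]
  rw [mul_mul_mul_comm, sq_half, sub_mul, add_mul, Real.sin_sub, Real.sin_add]
  ring

theorem ww_sc (N : ℕ) (t s : ℝ) : ∑ p ∈ PT N, ww t false p * ww s true p = -(SS N (t - s) + SS N (t + s)) / 8 := by
  unfold SS
  rw [← Finset.sum_add_distrib, ← Finset.sum_neg_distrib, Finset.sum_div]
  refine Finset.sum_congr rfl fun p _ => ?_
  unfold ww
  simp only [Bool.false_eq_true, if_false, if_true]
  rw [mul_mul_mul_comm, sq_half, sub_mul, add_mul, Real.sin_sub, Real.sin_add]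
  ring

theorem CC_ev (τ : ℝ) {ε : ℝ} (hε : 0 < ε) :
    ∀ᶠ N : ℕ in atTop, |CC N τ - (if τ = 0 then Real.log N ^ 2 / 2 else 0)| ≤ ε * Real.log N ^ 2 := by
  obtain ⟨N0, h⟩ := osc_cos' τ hε
  filter_upwards [eventually_ge_atTop N0] with N hN
  exact h N hN

theorem SS_ev (τ : ℝ) {ε : ℝ} (hε : 0 < ε) : ∀ᶠ N : ℕ in atTop, |SS N τ| ≤ ε * Real.log N ^ 2 := by
  obtain ⟨N0, h⟩ := osc_sin τ hε
  filter_upwards [eventually_ge_atTop N0] with N hN
  exact h N hN

/-- The covariances. -/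
theorem cov_ev {k : ℕ} {t : Fin k → ℝ} (ht : ∀ i, 0 < t i) (hinj : Function.Injective t) (i j : Fin k × Bool)
    {ε : ℝ} (hε : 0 < ε) :
    ∀ᶠ N : ℕ in atTop, |∑ p ∈ PT N, ww (t i.1) i.2 p * ww (t j.1) j.2 p * 1 -
      (if i = j then Real.log N ^ 2 / 16 else 0)| ≤ ε * Real.log N ^ 2 := by
  obtain ⟨a, b⟩ := i
  obtain ⟨a', b'⟩ := j
  have hsum : t a + t a' ≠ 0 := by
    have := ht a
    have := ht a'
    linarith
  have hdiff : t a - t a' = 0 ↔ a = a' := by
    rw [sub_eq_zero]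
    exact hinj.eq_iff
  filter_upwards [CC_ev (t a - t a') hε, CC_ev (t a + t a') hε, SS_ev (t a - t a') hε, SS_ev (t a + t a') hε]
    with N h1 h2 h3 h4
  rw [if_neg hsum, sub_zero] at h2
  have h0 : 0 ≤ ε * Real.log N ^ 2 := by positivity
  simp only [mul_one]
  cases b <;> cases b'
  · rw [ww_ss]
    by_cases haa : a = a'
    · rw [if_pos (by rw [haa])]
      rw [if_pos (hdiff.2 haa)] at h1
      rw [abs_le] at h1 h2 ⊢
      constructor <;> linarith
    · rw [if_neg (fun h => haa (Prod.mk.inj h).1)]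
      rw [if_neg (fun h => haa (hdiff.1 h))] at h1
      rw [abs_le] at h1 h2 ⊢
      constructor <;> linarith
  · rw [ww_sc, if_neg (fun h => Bool.noConfusion (Prod.mk.inj h).2)]
    rw [abs_le] at h3 h4 ⊢
    constructor <;> linarith
  · rw [ww_cs, if_neg (fun h => Bool.noConfusion (Prod.mk.inj h).2)]
    rw [abs_le] at h3 h4 ⊢
    constructor <;> linarith
  · rw [ww_cc]
    by_cases haa : a = a'
    · rw [if_pos (by rw [haa])]
      rw [if_pos (hdiff.2 haa)] at h1
      rw [abs_le] at h1 h2 ⊢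
      constructor <;> linarith
    · rw [if_neg (fun h => haa (Prod.mk.inj h).1)]
      rw [if_neg (fun h => haa (hdiff.1 h))] at h1
      rw [abs_le] at h1 h2 ⊢
      constructor <;> linarith

theorem LDs_of {U : ∀ p : ℕ, (ι → ZMod p) → ℝ} {μ C : ℝ} (h : LD U μ (μ ^ 2 + 1) C) (κ : Type) :
    LDs (κ := κ) (fun _ => U) (fun _ => μ) (fun _ _ => 1) (C + 2) where
  C1 := by
    have := h.C0
    linarith
  m1 := by
    intro i p hp _
    have hp0 : (0 : ℝ) < p := by exact_mod_cast hp.pos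
    exact (h.m1 p hp).trans (div_le_div_of_nonneg_right (by linarith) hp0.le)
  m2 := by
    intro i j p hp _
    have hp0 : (0 : ℝ) < p := by exact_mod_cast hp.pos
    have h1 := h.m2 p hp
    have e1 : (fun c => U p c * U p c) = fun c => U p c ^ 2 := by
      funext c
      ring
    have e2 : μ * μ + 1 = μ ^ 2 + 1 := by ring
    rw [e1, e2]
    exact h1.trans (div_le_div_of_nonneg_right (by linarith) hp0.le)
  m4 := by
    intro i p hp _
    have := h.m4 p hp
    linarith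

/-- The truncated series on the critical line, real form. -/
theorem critical_real {U : ∀ p : ℕ, (ι → ZMod p) → ℝ} {μ C : ℝ} (h : LD U μ (μ ^ 2 + 1) C) {k : ℕ} {t : Fin k → ℝ}
    (ht : ∀ i, 0 < t i) (hinj : Function.Injective t) (u : Fin k × Bool → ℝ) {ε : ℝ} (hε : 0 < ε) :
    ∃ K : ℕ, ∀ T H : ℕ, K ≤ T → T ^ K ≤ H →
      |({c : ι → ℤ | (∀ i, |c i| ≤ H) ∧ ∀ i : Fin k × Bool,
        ∑ p ∈ PT T, 2 * ww (t i.1) i.2 p * (U p (red p c) - μ) ≤ u i * (Real.log T / 2)}.ncard : ℝ) /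
        (2 * H + 1 : ℝ) ^ Fintype.card ι - ∏ i, (gaussianReal 0 1).real (Set.Iic (u i))| ≤ ε := by
  obtain ⟨K, hK1, hK⟩ := joint_ix ι (Fin k × Bool) (C + 2) u hε
  have hK0 : (0 : ℝ) < K := by exact_mod_cast hK1
  have hev : ∀ᶠ N : ℕ in atTop, ∀ i j : Fin k × Bool, |∑ p ∈ PT N, ww (t i.1) i.2 p * ww (t j.1) j.2 p * 1 -
      (if i = j then Real.log N ^ 2 / 16 else 0)| ≤ 1 / (16 * K) * Real.log N ^ 2 := by
    rw [eventually_all]
    intro i
    rw [eventually_all]
    intro j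
    exact cov_ev ht hinj i j (by positivity)
  have hlarge : ∀ᶠ N : ℕ in atTop, 4 * (K : ℝ) ≤ Real.log N :=
    (Real.tendsto_log_atTop.comp tendsto_natCast_atTop_atTop).eventually_ge_atTop (4 * (K : ℝ))
  obtain ⟨N0, hN0⟩ := eventually_atTop.1 (hev.and hlarge)
  refine ⟨max (max K N0) 1, fun T H hT hH => ?_⟩
  have hT1 : 1 ≤ T := (le_max_right _ _).trans hT
  obtain ⟨hcov, hlog⟩ := hN0 T ((le_max_right _ _).trans ((le_max_left _ _).trans hT))
  have hK1r : (1 : ℝ) ≤ K := by exact_mod_cast hK1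
  have hl0 : 0 < Real.log T := by linarith
  have hV : √(Real.log T ^ 2 / 16) = Real.log T / 4 := by
    rw [show Real.log T ^ 2 / 16 = (Real.log T / 4) ^ 2 by ring, Real.sqrt_sq (by positivity)]
  have hPp : ∀ p ∈ PT T, p.Prime ∧ p ≤ T := by
    intro p hp
    unfold PT at hp
    rw [Finset.mem_filter, Finset.mem_range] at hp
    exact ⟨hp.2, by omega⟩
  have hcov' : ∀ i j : Fin k × Bool, |∑ p ∈ PT T, ww (t i.1) i.2 p * ww (t j.1) j.2 p * 1 -
      (if i = j then Real.log T ^ 2 / 16 else 0)| ≤ Real.log T ^ 2 / 16 / K := by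
    intro i j
    refine (hcov i j).trans (le_of_eq ?_)
    field_simp
  have hsq : ∀ i : Fin k × Bool, ∑ p ∈ PT T, ww (t i.1) i.2 p ^ 2 ≤ (C + 2) * (Real.log T ^ 2 / 16) := by
    intro i
    have h1 := hcov' i i
    rw [if_pos rfl] at h1
    have e : ∑ p ∈ PT T, ww (t i.1) i.2 p ^ 2 = ∑ p ∈ PT T, ww (t i.1) i.2 p * ww (t i.1) i.2 p * 1 :=
      Finset.sum_congr rfl fun p _ => by ring
    rw [e]
    have h2 : Real.log T ^ 2 / 16 / K ≤ Real.log T ^ 2 / 16 := div_le_self (by positivity) hK1r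
    have h3 := (abs_le.1 h1).2
    have hC := h.C0
    nlinarith [sq_nonneg (Real.log T)]
  have hfin := hK (fun _ => U) (fun _ => μ) (fun _ _ => 1) (LDs_of h _) (PT T) (fun i p => ww (t i.1) i.2 p)
    (Real.log T ^ 2 / 16) T H hPp hT1 (fun i p hp => ww_abs _ _ (hPp p hp).1.one_lt.le)
    (by nlinarith) hsq hcov'
    ((Nat.pow_le_pow_right hT1 ((le_max_left _ _).trans (le_max_left _ _))).trans hH)
  rw [hV] at hfin
  refine le_trans (le_of_eq ?_) hfin
  congr 3
  congr 2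
  ext c
  simp only [Set.mem_ofPred_eq]
  refine and_congr_right fun _ => forall_congr' fun i => ?_
  have e : ∑ p ∈ PT T, 2 * ww (t i.1) i.2 p * (U p (red p c) - μ) =
      2 * ∑ p ∈ PT T, ww (t i.1) i.2 p * (U p (red p c) - μ) := by
    rw [Finset.mul_sum]
    exact Finset.sum_congr rfl fun p _ => by ring
  rw [e]
  constructor <;> intro h <;> linarith

/-- The truncated series on the critical line. -/
noncomputable def DD (U : ∀ p : ℕ, (ι → ZMod p) → ℝ) (μ : ℝ) (T : ℕ) (t : ℝ) (c : ι → ℤ) : ℂ :=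
  ∑ p ∈ PT T, ((U p (red p c) - μ : ℝ) : ℂ) * (Real.log p : ℂ) * (p : ℂ) ^ (-(1 / 2 + t * Complex.I))

theorem cpow_re_im {p : ℕ} (hp : 1 ≤ p) (t : ℝ) :
    ((Real.log p : ℂ) * (p : ℂ) ^ (-(1 / 2 + t * Complex.I) : ℂ)).re = 2 * ww t true p ∧
    ((Real.log p : ℂ) * (p : ℂ) ^ (-(1 / 2 + t * Complex.I) : ℂ)).im = 2 * ww t false p := by
  have hp0 : (0 : ℝ) < p := by exact_mod_cast hp
  have hpc : (p : ℂ) ≠ 0 := by exact_mod_cast hp0.ne'
  have hs : 0 < √(p : ℝ) := Real.sqrt_pos.2 hp0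
  have e1 : (p : ℂ) ^ (-(1 / 2 + t * Complex.I) : ℂ) =
      ((1 / √(p : ℝ) : ℝ) : ℂ) * Complex.exp (((-(t * Real.log p) : ℝ) : ℂ) * Complex.I) := by
    rw [Complex.cpow_def_of_ne_zero hpc]
    have e2 : Complex.log (p : ℂ) = ((Real.log p : ℝ) : ℂ) := by
      rw [← Complex.ofReal_natCast, Complex.ofReal_log hp0.le]
    have e3 : ((1 / √(p : ℝ) : ℝ) : ℂ) = Complex.exp (((-(Real.log p / 2) : ℝ) : ℂ)) := by
      rw [← Complex.ofReal_exp]
      congr 1
      rw [Real.exp_neg, ← Real.log_sqrt hp0.le, Real.exp_log hs, one_div]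
    rw [e2, e3, ← Complex.exp_add]
    congr 1
    push_cast
    ring
  rw [e1]
  unfold ww
  rw [Complex.exp_mul_I]
  constructor
  · rw [← Complex.ofReal_cos, ← Complex.ofReal_sin]
    simp only [Complex.mul_re, Complex.add_re, Complex.ofReal_re, Complex.ofReal_im, Complex.I_re, Complex.I_im,
      Complex.mul_im, Complex.add_im, if_true, Real.cos_neg, Real.sin_neg]
    field_simp
    ring
  · rw [← Complex.ofReal_cos, ← Complex.ofReal_sin]
    simp only [Complex.mul_re, Complex.add_re, Complex.ofReal_re, Complex.ofReal_im, Complex.I_re, Complex.I_im,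
      Complex.mul_im, Complex.add_im, Bool.false_eq_true, if_false, Real.cos_neg, Real.sin_neg]
    field_simp
    ring

theorem DD_re (U : ∀ p : ℕ, (ι → ZMod p) → ℝ) (μ : ℝ) (T : ℕ) (t : ℝ) (c : ι → ℤ) :
    (DD U μ T t c).re = ∑ p ∈ PT T, 2 * ww t true p * (U p (red p c) - μ) := by
  unfold DD
  rw [Complex.re_sum]
  refine Finset.sum_congr rfl fun p hp => ?_
  have hp1 : 1 ≤ p := (Finset.mem_filter.1 hp).2.one_lt.le
  rw [mul_assoc, Complex.re_ofReal_mul, (cpow_re_im hp1 t).1]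
  ring

theorem DD_im (U : ∀ p : ℕ, (ι → ZMod p) → ℝ) (μ : ℝ) (T : ℕ) (t : ℝ) (c : ι → ℤ) :
    (DD U μ T t c).im = ∑ p ∈ PT T, 2 * ww t false p * (U p (red p c) - μ) := by
  unfold DD
  rw [Complex.im_sum]
  refine Finset.sum_congr rfl fun p hp => ?_
  have hp1 : 1 ≤ p := (Finset.mem_filter.1 hp).2.one_lt.le
  rw [mul_assoc, Complex.im_ofReal_mul, (cpow_re_im hp1 t).2]
  ring

/-- **The joint normal law at different points of the critical line.** -/
theorem critical {U : ∀ p : ℕ, (ι → ZMod p) → ℝ} {μ C : ℝ} (h : LD U μ (μ ^ 2 + 1) C) {k : ℕ} {t : Fin k → ℝ}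
    (ht : ∀ i, 0 < t i) (hinj : Function.Injective t) (x y : Fin k → ℝ) {ε : ℝ} (hε : 0 < ε) :
    ∃ K : ℕ, ∀ T H : ℕ, K ≤ T → T ^ K ≤ H →
      |({c : ι → ℤ | (∀ i, |c i| ≤ H) ∧ ∀ j, (DD U μ T (t j) c).re ≤ x j * (Real.log T / 2) ∧
        (DD U μ T (t j) c).im ≤ y j * (Real.log T / 2)}.ncard : ℝ) / (2 * H + 1 : ℝ) ^ Fintype.card ι -
        ∏ j, ((gaussianReal 0 1).real (Set.Iic (x j)) * (gaussianReal 0 1).real (Set.Iic (y j)))| ≤ ε := by
  obtain ⟨K, hK⟩ := critical_real h ht hinj (fun i => if i.2 then x i.1 else y i.1) hε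
  refine ⟨K, fun T H hT hH => ?_⟩
  have hfin := hK T H hT hH
  have e2 : ∏ j, ((gaussianReal 0 1).real (Set.Iic (x j)) * (gaussianReal 0 1).real (Set.Iic (y j))) =
      ∏ i : Fin k × Bool, (gaussianReal 0 1).real (Set.Iic (if i.2 = true then x i.1 else y i.1)) := by
    rw [Fintype.prod_prod_type]
    refine Finset.prod_congr rfl fun j _ => ?_
    rw [Fintype.prod_bool]
    simp
  rw [e2]
  refine le_trans (le_of_eq ?_) hfin
  congr 3
  congr 2
  ext c
  simp only [Set.mem_ofPred_eq]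
  refine and_congr_right fun _ => ?_
  constructor
  · intro h1 i
    obtain ⟨j, b⟩ := i
    obtain ⟨h2, h3⟩ := h1 j
    rw [DD_re] at h2
    rw [DD_im] at h3
    cases b
    · simpa using h3
    · simpa using h2
  · intro h1 j
    have h2 := h1 (j, true)
    have h3 := h1 (j, false)
    rw [DD_re, DD_im]
    exact ⟨by simpa using h2, by simpa using h3⟩

end Pool.Agent.U62.CL
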