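import Pool.Agent.U62.RB.Gen3

/-!
# The joint normal law with general index types
-/

set_option autoImplicit false
set_option linter.unusedSectionVars false

namespace Pool.Agent.U62.CL

open Finset Filter Topology Pool.Agent.Y722.HS Pool.Agent.X280.BP Pool.Agent.X280.UC
  Pool.Agent.X280.HG Pool.Agent.U62.BM Pool.Agent.U62.RB MeasureTheory ProbabilityTheory

variable {ι κ : Type} [Fintype ι] [DecidableEq ι] [Fintype κ] [DecidableEq κ]

/-- Local data: means `μ`, covariances `g`, bounded fourth moments. -/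
structure LDs (U : κ → ∀ p : ℕ, (ι → ZMod p) → ℝ) (μ : κ → ℝ) (g : κ → κ → ℝ) (C : ℝ) : Prop where
  C1 : 1 ≤ C
  m1 : ∀ i p, p.Prime → ∀ [NeZero p], |EM p (U i p) - μ i| ≤ C / p
  m2 : ∀ i j p, p.Prime → ∀ [NeZero p], |EM p (fun c => U i p c * U j p c) - (μ i * μ j + g i j)| ≤ C / p
  m4 : ∀ i p, p.Prime → ∀ [NeZero p], EM p (fun c => U i p c ^ 4) ≤ C

theorem EM_reindex {n : ℕ} (e : ι ≃ Fin n) (p : ℕ) [NeZero p] (F : (ι → ZMod p) → ℝ) :
    EM p (fun c : Fin n → ZMod p => F (fun i => c (e i))) = EM p F := by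
  unfold EM
  have h : Fintype.card ι = n := by
    rw [Fintype.card_congr e, Fintype.card_fin]
  rw [h, Fintype.card_fin]
  congr 1
  exact Fintype.sum_equiv (e.symm.arrowCongr (Equiv.refl (ZMod p))) _ _ fun c => by
    congr 1

theorem LDs.toLDk {U : κ → ∀ p : ℕ, (ι → ZMod p) → ℝ} {μ : κ → ℝ} {g : κ → κ → ℝ} {C : ℝ} (h : LDs U μ g C)
    {n k : ℕ} (e : ι ≃ Fin n) (f : κ ≃ Fin k) :
    LDk (fun i p (c : Fin n → ZMod p) => U (f.symm i) p (fun j => c (e j))) (fun i => μ (f.symm i))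
      (fun i j => g (f.symm i) (f.symm j)) C where
  C1 := h.C1
  m1 := by
    intro i p hp _
    rw [EM_reindex e p (U (f.symm i) p)]
    exact h.m1 _ p hp
  m2 := by
    intro i j p hp _
    rw [EM_reindex e p (fun c => U (f.symm i) p c * U (f.symm j) p c)]
    exact h.m2 _ _ p hp
  m4 := by
    intro i p hp _
    rw [EM_reindex e p (fun c => U (f.symm i) p c ^ 4)]
    exact h.m4 _ p hp

theorem ncard_reindex {n : ℕ} (e : ι ≃ Fin n) (H : ℕ) (Q : (ι → ℤ) → Prop) :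
    {c : Fin n → ℤ | (∀ i, |c i| ≤ H) ∧ Q (fun j => c (e j))}.ncard = {c : ι → ℤ | (∀ i, |c i| ≤ H) ∧ Q c}.ncard := by
  have h : {c : ι → ℤ | (∀ i, |c i| ≤ H) ∧ Q c} =
      (fun (c : Fin n → ℤ) (j : ι) => c (e j)) '' {c : Fin n → ℤ | (∀ i, |c i| ≤ H) ∧ Q (fun j => c (e j))} := by
    ext c
    constructor
    · rintro ⟨h1, h2⟩
      refine ⟨fun i => c (e.symm i), ⟨fun i => h1 _, ?_⟩, ?_⟩
      · simpa using h2
      · funext j
        simp
    · rintro ⟨c', ⟨h1, h2⟩, rfl⟩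
      exact ⟨fun i => h1 _, h2⟩
  rw [h, Set.ncard_image_of_injective]
  intro c c' hc
  funext i
  have := congrFun hc (e.symm i)
  simpa using this

/-- **The joint normal law with general index types.** -/
theorem joint_ix (ι κ : Type) [Fintype ι] [DecidableEq ι] [Fintype κ] [DecidableEq κ] (C : ℝ) (u : κ → ℝ) {ε : ℝ}
    (hε : 0 < ε) : ∃ K : ℕ, 1 ≤ K ∧
    ∀ (U : κ → ∀ p : ℕ, (ι → ZMod p) → ℝ) (μ : κ → ℝ) (g : κ → κ → ℝ), LDs U μ g C →
    ∀ (P : Finset ℕ) (w : κ → ℕ → ℝ) (V : ℝ) (y H : ℕ),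
    (∀ p ∈ P, p.Prime ∧ p ≤ y) → 1 ≤ y → (∀ i, ∀ p ∈ P, |w i p| ≤ 1) → K ≤ V →
    (∀ i, ∑ p ∈ P, w i p ^ 2 ≤ C * V) →
    (∀ i j, |∑ p ∈ P, w i p * w j p * g i j - if i = j then V else 0| ≤ V / K) → y ^ K ≤ H →
    |({c : ι → ℤ | (∀ i, |c i| ≤ H) ∧ ∀ i, ∑ p ∈ P, w i p * (U i p (red p c) - μ i) ≤ u i * √V}.ncard : ℝ) /
        (2 * H + 1 : ℝ) ^ Fintype.card ι - ∏ i, (gaussianReal 0 1).real (Set.Iic (u i))| ≤ ε := by
  obtain ⟨K, hK1, hK⟩ := joint_gen (Fintype.card ι) (Fintype.card κ) C (fun i => u ((Fintype.equivFin κ).symm i)) hε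
  refine ⟨K, hK1, fun U μ g h P w V y H hP hy hw hV hW hcov hH => ?_⟩
  have hfin := hK _ _ _ (h.toLDk (Fintype.equivFin ι) (Fintype.equivFin κ)) P
    (fun i => w ((Fintype.equivFin κ).symm i)) V y H hP hy (fun i => hw _) hV (fun i => hW _)
    (fun i j => by
      have h1 := hcov ((Fintype.equivFin κ).symm i) ((Fintype.equivFin κ).symm j)
      have h2 : ((Fintype.equivFin κ).symm i = (Fintype.equivFin κ).symm j) ↔ i = j :=
        (Fintype.equivFin κ).symm.injective.eq_iff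
      simp only [h2] at h1
      exact h1) hH
  unfold prop at hfin
  have e1 : {c : Fin (Fintype.card ι) → ℤ | (∀ i, |c i| ≤ H) ∧ ∀ i : Fin (Fintype.card κ), ∑ p ∈ P,
      w ((Fintype.equivFin κ).symm i) p * (U ((Fintype.equivFin κ).symm i) p (fun j => red p c (Fintype.equivFin ι j)) -
      μ ((Fintype.equivFin κ).symm i)) ≤ u ((Fintype.equivFin κ).symm i) * √V}.ncard =
      {c : ι → ℤ | (∀ i, |c i| ≤ H) ∧ ∀ i, ∑ p ∈ P, w i p * (U i p (red p c) - μ i) ≤ u i * √V}.ncard := by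
    rw [← ncard_reindex (Fintype.equivFin ι) H (fun c => ∀ i, ∑ p ∈ P, w i p * (U i p (red p c) - μ i) ≤ u i * √V)]
    congr 1
    ext c
    simp only [Set.mem_ofPred_eq]
    refine and_congr_right fun _ => ?_
    constructor
    · intro h i
      have := h (Fintype.equivFin κ i)
      rw [Equiv.symm_apply_apply] at this
      exact this
    · intro h i
      exact h _
  have e2 : ∏ i, (gaussianReal 0 1).real (Set.Iic (u ((Fintype.equivFin κ).symm i))) =
      ∏ i, (gaussianReal 0 1).real (Set.Iic (u i)) :=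
    Fintype.prod_equiv (Fintype.equivFin κ).symm _ _ fun _ => rfl
  rw [e1, e2] at hfin
  exact hfin

end Pool.Agent.U62.CL
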