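import Mathlib
import Pool.Agent.Helper601.PNT

/-!
# Sums over primes with oscillating logarithmic weights
-/

set_option autoImplicit false

namespace Pool.Agent.U62.CL

open Finset Filter Topology

/-- Abel summation: if `E n` is small and `g` varies slowly, then `∑ (E (n+1) - E n) g (n+1)` is small. -/
theorem abel (E g : ℕ → ℝ) (N : ℕ) :
    ∑ n ∈ range N, (E (n + 1) - E n) * g (n + 1) = E N * g N - E 0 * g 0 - ∑ n ∈ range N, E n * (g (n + 1) - g n) := by
  induction N with
  | zero => simp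
  | succ N ih =>
    rw [Finset.sum_range_succ, ih, Finset.sum_range_succ]
    ring

/-- The growth of a function and its derivative. -/
structure Slow (h h' : ℝ → ℝ) (B : ℝ) : Prop where
  B0 : 0 ≤ B
  der : ∀ v, HasDerivAt h (h' v) v
  b0 : ∀ v, 0 ≤ v → |h v| ≤ B * (1 + v)
  b1 : ∀ v, 0 ≤ v → |h' v| ≤ B * (1 + v)

variable {h h' : ℝ → ℝ} {B : ℝ}

/-- The function `h (log x) / x` varies slowly. -/
theorem Slow.diff (hs : Slow h h' B) {x y : ℝ} (hx : 1 ≤ x) (hxy : x ≤ y) (hy : y ≤ x + 1) :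
    |h (Real.log y) / y - h (Real.log x) / x| ≤ 2 * B * (1 + Real.log (x + 1)) / x ^ 2 := by
  have hB := hs.B0
  have hx0 : 0 < x := by linarith
  have hd : ∀ z ∈ Set.Icc x (x + 1), HasDerivWithinAt (fun z => h (Real.log z) / z)
      ((h' (Real.log z) * z⁻¹ * z - h (Real.log z) * 1) / z ^ 2) (Set.Icc x (x + 1)) z := by
    intro z hz
    have hz0 : 0 < z := lt_of_lt_of_le hx0 hz.1
    have h1 : HasDerivAt (fun z => h (Real.log z)) (h' (Real.log z) * z⁻¹) z :=
      (hs.der (Real.log z)).comp z (Real.hasDerivAt_log hz0.ne')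
    exact (h1.div (hasDerivAt_id z) hz0.ne').hasDerivWithinAt
  have hb : ∀ z ∈ Set.Icc x (x + 1), ‖(h' (Real.log z) * z⁻¹ * z - h (Real.log z) * 1) / z ^ 2‖ ≤
      2 * B * (1 + Real.log (x + 1)) / x ^ 2 := by
    intro z hz
    have hz0 : 0 < z := lt_of_lt_of_le hx0 hz.1
    have hz1 : 1 ≤ z := hx.trans hz.1
    have hl : 0 ≤ Real.log z := Real.log_nonneg hz1
    have hl2 : Real.log z ≤ Real.log (x + 1) := Real.log_le_log hz0 hz.2
    rw [mul_assoc, inv_mul_cancel₀ hz0.ne', mul_one, mul_one, norm_div, Real.norm_eq_abs, Real.norm_eq_abs,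
      abs_of_pos (by positivity : (0 : ℝ) < z ^ 2)]
    have h1 := hs.b0 _ hl
    have h2 := hs.b1 _ hl
    have h3 : |h' (Real.log z) - h (Real.log z)| ≤ 2 * B * (1 + Real.log (x + 1)) := by
      refine (abs_sub _ _).trans ?_
      have h4 : B * (1 + Real.log z) ≤ B * (1 + Real.log (x + 1)) := mul_le_mul_of_nonneg_left (by linarith) hB
      linarith
    have h5 : x ^ 2 ≤ z ^ 2 := pow_le_pow_left₀ hx0.le hz.1 2
    exact div_le_div₀ (by
      have : 0 ≤ Real.log (x + 1) := Real.log_nonneg (by linarith)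
      positivity) h3 (by positivity) h5
  have := (convex_Icc x (x + 1)).norm_image_sub_le_of_norm_hasDerivWithin_le hd hb
    (Set.mem_Icc.2 ⟨le_rfl, by linarith⟩ : x ∈ _) (Set.mem_Icc.2 ⟨hxy, hy⟩ : y ∈ _)
  rw [Real.norm_eq_abs, Real.norm_eq_abs, abs_of_nonneg (by linarith : 0 ≤ y - x)] at this
  refine this.trans ?_
  have h1 : 0 ≤ 2 * B * (1 + Real.log (x + 1)) / x ^ 2 := by
    have : 0 ≤ Real.log (x + 1) := Real.log_nonneg (by linarith)
    positivity
  nlinarith

/-- The simple bound of the variation. -/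
theorem Slow.diff' (hs : Slow h h' B) {n : ℕ} (hn : 1 ≤ n) {y : ℝ} (hxy : (n : ℝ) ≤ y) (hy : y ≤ n + 1) :
    |h (Real.log y) / y - h (Real.log n) / n| ≤ 4 * B * (1 + Real.log n) / (n : ℝ) ^ 2 := by
  have hB := hs.B0
  have hn1 : (1 : ℝ) ≤ n := by exact_mod_cast hn
  refine (hs.diff hn1 hxy hy).trans ?_
  refine div_le_div_of_nonneg_right ?_ (by positivity)
  have h1 : Real.log ((n : ℝ) + 1) ≤ Real.log n + 1 := by
    have h2 : Real.log ((n : ℝ) + 1) - Real.log n ≤ 1 := by
      rw [← Real.log_div (by positivity) (by positivity)]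
      have h3 := Real.log_le_sub_one_of_pos (by positivity : 0 < ((n : ℝ) + 1) / n)
      have h4 : ((n : ℝ) + 1) / n - 1 = 1 / n := by field_simp; ring
      have h5 : 1 / (n : ℝ) ≤ 1 := by rw [div_le_one (by linarith)]; exact hn1
      linarith
    linarith
  have h0 : 0 ≤ Real.log n := Real.log_nonneg hn1
  nlinarith

/-- The logarithms of the primes. -/
noncomputable def lp (n : ℕ) : ℝ := if n.Prime then Real.log n else 0

theorem theta_step (n : ℕ) : Chebyshev.theta ((n + 1 : ℕ) : ℝ) - Chebyshev.theta (n : ℝ) = lp (n + 1) := by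
  rw [Chebyshev.theta_eq_sum_Icc, Chebyshev.theta_eq_sum_Icc, Nat.floor_natCast, Nat.floor_natCast, Finset.sum_filter,
    Finset.sum_filter, Finset.sum_Icc_succ_top (by omega), add_sub_cancel_left]
  rfl

theorem sum_primes (f : ℕ → ℝ) (N : ℕ) :
    ∑ p ∈ (range (N + 1)).filter Nat.Prime, Real.log p * f p = ∑ n ∈ range N, lp (n + 1) * f (n + 1) := by
  rw [Finset.sum_filter, Finset.sum_range_succ']
  simp only [Nat.not_prime_zero, if_false, add_zero]
  refine Finset.sum_congr rfl fun n _ => ?_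
  unfold lp
  split_ifs <;> simp

theorem sum_inv (N : ℕ) : ∑ n ∈ range N, (1 : ℝ) / ((n + 1 : ℕ) : ℝ) ≤ 1 + Real.log N := by
  have h := harmonic_le_one_add_log N
  unfold harmonic at h
  push_cast at h ⊢
  refine le_trans (le_of_eq ?_) h
  exact Finset.sum_congr rfl fun n _ => by rw [one_div]

theorem theta_err {ε : ℝ} (hε : 0 < ε) : ∃ n0 : ℕ, ∀ n : ℕ, n0 ≤ n → |Chebyshev.theta (n : ℝ) - n| ≤ ε * n := by
  have h := Pool.Agent.Helper601.PNT.theta_div_tendsto.comp tendsto_natCast_atTop_atTop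
  rw [Metric.tendsto_atTop] at h
  obtain ⟨n0, hn0⟩ := h ε hε
  refine ⟨n0 + 1, fun n hn => ?_⟩
  have h1 := hn0 n (by omega)
  rw [Function.comp_apply, Real.dist_eq] at h1
  have hn1 : (0 : ℝ) < n := by exact_mod_cast (by omega : 0 < n)
  have e : Chebyshev.theta (n : ℝ) - n = (Chebyshev.theta (n : ℝ) / n - 1) * n := by field_simp
  rw [e, abs_mul, abs_of_pos hn1]
  exact mul_le_mul_of_nonneg_right h1.le hn1.le

theorem theta_err' (n : ℕ) : |Chebyshev.theta (n : ℝ) - n| ≤ n := by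
  have hn : (0 : ℝ) ≤ n := Nat.cast_nonneg n
  have h1 := Chebyshev.theta_le_log4_mul_x hn
  have h2 := Chebyshev.theta_nonneg (n : ℝ)
  have h3 : Real.log 4 ≤ 2 := by
    have h4 : Real.log 4 = 2 * Real.log 2 := by
      rw [show (4 : ℝ) = 2 ^ 2 by norm_num, Real.log_pow]
      norm_num
    have := Real.log_two_lt_d9
    linarith
  rw [abs_le]
  constructor <;> nlinarith

/-- **Sums over the primes with slowly varying weights.** -/
theorem Slow.main (hs : Slow h h' B) {H : ℝ → ℝ} (hH : ∀ v, HasDerivAt H (h v) v) {ε : ℝ} (hε : 0 < ε) :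
    ∃ N0 : ℕ, ∀ N : ℕ, N0 ≤ N →
      |∑ p ∈ (range (N + 1)).filter Nat.Prime, Real.log p * (h (Real.log p) / p) - H (Real.log N)| ≤
        ε * Real.log N ^ 2 := by
  have hB := hs.B0
  obtain ⟨g, hg⟩ : ∃ g : ℕ → ℝ, g = fun n : ℕ => h (Real.log n) / n := ⟨_, rfl⟩
  obtain ⟨E, hE⟩ : ∃ E : ℕ → ℝ, E = fun n : ℕ => Chebyshev.theta (n : ℝ) - n := ⟨_, rfl⟩
  obtain ⟨δ, hδ⟩ : ∃ δ : ℝ, δ = ε / (32 * (B + 1)) := ⟨_, rfl⟩
  have hδ0 : 0 < δ := by rw [hδ]; positivity
  obtain ⟨n0, hn0⟩ := theta_err hδ0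
  obtain ⟨C0, hC0⟩ : ∃ C0 : ℝ, C0 = ∑ n ∈ range n0, |E n * (g (n + 1) - g n)| := ⟨_, rfl⟩
  have hC00 : 0 ≤ C0 := by rw [hC0]; exact Finset.sum_nonneg fun _ _ => abs_nonneg _
  -- the variation
  have hvar : ∀ n : ℕ, 1 ≤ n → |g (n + 1) - g n| ≤ 4 * B * (1 + Real.log n) / (n : ℝ) ^ 2 := by
    intro n hn
    rw [hg]
    have := hs.diff' hn (y := ((n + 1 : ℕ) : ℝ)) (by push_cast; linarith) (by push_cast; linarith)
    exact this
  -- step 1
  have h1 : ∀ N : ℕ, 1 ≤ N → |∑ n ∈ range N, lp (n + 1) * g (n + 1) - ∑ n ∈ range N, g (n + 1)| ≤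
      B * (1 + Real.log N) + C0 + 4 * B * δ * (1 + Real.log N) ^ 2 := by
    intro N hN
    have hN1 : (1 : ℝ) ≤ N := by exact_mod_cast hN
    have hlN : 0 ≤ Real.log N := Real.log_nonneg hN1
    have e1 : ∑ n ∈ range N, lp (n + 1) * g (n + 1) - ∑ n ∈ range N, g (n + 1) =
        ∑ n ∈ range N, (E (n + 1) - E n) * g (n + 1) := by
      rw [← Finset.sum_sub_distrib]
      refine Finset.sum_congr rfl fun n _ => ?_
      rw [← theta_step, hE]
      push_cast
      ring
    rw [e1, abel]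
    have hE0 : E 0 = 0 := by
      rw [hE]
      simp
    rw [hE0, zero_mul, sub_zero]
    have b1 : |E N * g N| ≤ B * (1 + Real.log N) := by
      rw [abs_mul, hE, hg]
      have h2 := theta_err' N
      have h3 := hs.b0 _ hlN
      simp only
      rw [abs_div, abs_of_pos (by linarith : (0 : ℝ) < N)]
      calc |Chebyshev.theta (N : ℝ) - N| * (|h (Real.log N)| / N) ≤ N * ((B * (1 + Real.log N)) / N) :=
            mul_le_mul h2 (div_le_div_of_nonneg_right h3 (by linarith)) (by positivity) (by linarith)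
        _ = _ := by
            have : (N : ℝ) ≠ 0 := by linarith
            field_simp
    have b2 : |∑ n ∈ range N, E n * (g (n + 1) - g n)| ≤ C0 + 4 * B * δ * (1 + Real.log N) ^ 2 := by
      refine (Finset.abs_sum_le_sum_abs _ _).trans ?_
      have b3 : ∀ n ∈ range N, |E n * (g (n + 1) - g n)| ≤
          (if n < n0 then |E n * (g (n + 1) - g n)| else 0) +
            4 * B * δ * (1 + Real.log N) * (if n = 0 then 0 else 1 / (n : ℝ)) := by
        intro n hn
        have hn := Finset.mem_range.1 hn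
        split_ifs with hn1 hn2 hn2
        · simp
        · have : 0 ≤ 4 * B * δ * (1 + Real.log N) * (1 / (n : ℝ)) := by positivity
          linarith
        · rw [hn2, hE0, zero_mul, abs_zero]
          simp
        · have hn3 : 1 ≤ n := Nat.one_le_iff_ne_zero.2 hn2
          have hn4 : (1 : ℝ) ≤ n := by exact_mod_cast hn3
          have h2 := hn0 n (by omega)
          have h3 := hvar n hn3
          have h4 : Real.log n ≤ Real.log N := Real.log_le_log (by linarith) (by exact_mod_cast hn.le)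
          have h5 : 0 ≤ Real.log n := Real.log_nonneg hn4
          rw [abs_mul, zero_add]
          have h6 : |E n| ≤ δ * n := by rw [hE]; exact h2
          calc |E n| * |g (n + 1) - g n| ≤ (δ * n) * (4 * B * (1 + Real.log n) / (n : ℝ) ^ 2) :=
                mul_le_mul h6 h3 (abs_nonneg _) (by positivity)
            _ = 4 * B * δ * (1 + Real.log n) * (1 / (n : ℝ)) := by
                field_simp
            _ ≤ _ := by
                refine mul_le_mul_of_nonneg_right ?_ (by positivity)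
                exact mul_le_mul_of_nonneg_left (by linarith) (by positivity)
      refine (Finset.sum_le_sum b3).trans ?_
      rw [Finset.sum_add_distrib, ← Finset.mul_sum]
      have b4 : ∑ n ∈ range N, (if n < n0 then |E n * (g (n + 1) - g n)| else 0) ≤ C0 := by
        rw [← Finset.sum_filter, hC0]
        refine Finset.sum_le_sum_of_subset_of_nonneg ?_ fun _ _ _ => abs_nonneg _
        intro n hn
        rw [Finset.mem_filter] at hn
        exact Finset.mem_range.2 hn.2
      have b5 : ∑ n ∈ range N, (if n = 0 then 0 else 1 / (n : ℝ)) ≤ 1 + Real.log N := by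
        obtain ⟨M, rfl⟩ : ∃ M, N = M + 1 := ⟨N - 1, by omega⟩
        rw [Finset.sum_range_succ']
        simp only [Nat.add_eq_zero_iff, one_ne_zero, and_false, if_false, if_true, add_zero]
        have h2 := sum_inv M
        rcases Nat.eq_zero_or_pos M with h3 | h3
        · subst h3
          simp
        · have h4 : Real.log M ≤ Real.log ((M + 1 : ℕ) : ℝ) :=
            Real.log_le_log (by exact_mod_cast h3) (by push_cast; linarith)
          linarith
      have b6 : 4 * B * δ * (1 + Real.log N) * ∑ n ∈ range N, (if n = 0 then 0 else 1 / (n : ℝ)) ≤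
          4 * B * δ * (1 + Real.log N) * (1 + Real.log N) := mul_le_mul_of_nonneg_left b5 (by positivity)
      have e2 : 4 * B * δ * (1 + Real.log N) ^ 2 = 4 * B * δ * (1 + Real.log N) * (1 + Real.log N) := by ring
      rw [e2]
      exact add_le_add b4 b6
    refine (abs_sub _ _).trans ?_
    linarith
  -- step 2
  have h2 : ∀ N : ℕ, 1 ≤ N → |∑ n ∈ range N, g (n + 1) - H (Real.log N)| ≤
      |h 0| + |H 0| + 8 * B * (1 + Real.log N) := by
    intro N hN
    obtain ⟨M, rfl⟩ : ∃ M, N = M + 1 := ⟨N - 1, by omega⟩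
    have e1 : ∀ M : ℕ, ∑ n ∈ range M, (H (Real.log ((n + 2 : ℕ) : ℝ)) - H (Real.log ((n + 1 : ℕ) : ℝ))) =
        H (Real.log ((M + 1 : ℕ) : ℝ)) - H 0 := by
      intro M
      induction M with
      | zero => simp
      | succ M ih =>
        rw [Finset.sum_range_succ, ih]
        push_cast
        ring_nf
    have e2 : g 1 = h 0 := by
      rw [hg]
      simp
    rw [Finset.sum_range_succ', zero_add, e2]
    have e3 : ∑ n ∈ range M, g (n + 1 + 1) + h 0 - H (Real.log ((M + 1 : ℕ) : ℝ)) =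
        (∑ n ∈ range M, (g (n + 1 + 1) - (H (Real.log ((n + 2 : ℕ) : ℝ)) - H (Real.log ((n + 1 : ℕ) : ℝ))))) + h 0 - H 0 := by
      rw [Finset.sum_sub_distrib, e1]
      ring
    rw [e3]
    have b1 : ∀ n ∈ range M, |g (n + 1 + 1) - (H (Real.log ((n + 2 : ℕ) : ℝ)) - H (Real.log ((n + 1 : ℕ) : ℝ)))| ≤
        8 * B * (1 / ((n + 1 : ℕ) : ℝ)) := by
      intro n _
      have hn1 : (1 : ℝ) ≤ ((n + 1 : ℕ) : ℝ) := by push_cast; linarith [(Nat.cast_nonneg n : (0 : ℝ) ≤ n)]
      obtain ⟨z, hz, hz2⟩ := exists_hasDerivAt_eq_slope (fun z => H (Real.log z)) (fun z => h (Real.log z) * z⁻¹)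
        (a := ((n + 1 : ℕ) : ℝ)) (b := ((n + 1 : ℕ) : ℝ) + 1) (by linarith)
        (fun z hz => by
          have hz0 : 0 < z := lt_of_lt_of_le (by linarith) hz.1
          exact (((hH (Real.log z)).comp z (Real.hasDerivAt_log hz0.ne')).continuousAt).continuousWithinAt)
        (fun z hz => by
          have hz0 : 0 < z := lt_trans (by linarith) hz.1
          exact (hH (Real.log z)).comp z (Real.hasDerivAt_log hz0.ne'))
      rw [add_sub_cancel_left, div_one] at hz2
      have e4 : ((n + 2 : ℕ) : ℝ) = ((n + 1 : ℕ) : ℝ) + 1 := by push_cast; ring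
      rw [e4, ← hz2]
      have h3 := hvar (n + 1) (by omega)
      have h4 := hs.diff' (n := n + 1) (by omega) hz.1.le hz.2.le
      have h5 : |g (n + 1) - h (Real.log z) * z⁻¹| ≤ 4 * B * (1 + Real.log ((n + 1 : ℕ) : ℝ)) / (((n + 1 : ℕ) : ℝ)) ^ 2 := by
        rw [abs_sub_comm, hg]
        exact h4
      have h6 : |g (n + 1 + 1) - h (Real.log z) * z⁻¹| ≤ 8 * B * (1 + Real.log ((n + 1 : ℕ) : ℝ)) / (((n + 1 : ℕ) : ℝ)) ^ 2 := by
        have e5 : g (n + 1 + 1) - h (Real.log z) * z⁻¹ = (g (n + 1 + 1) - g (n + 1)) + (g (n + 1) - h (Real.log z) * z⁻¹) := by ring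
        rw [e5]
        refine (abs_add_le _ _).trans ((add_le_add h3 h5).trans (le_of_eq ?_))
        ring
      refine h6.trans ?_
      have h7 : 1 + Real.log ((n + 1 : ℕ) : ℝ) ≤ ((n + 1 : ℕ) : ℝ) := by
        have := Real.log_le_sub_one_of_pos (by linarith : (0 : ℝ) < ((n + 1 : ℕ) : ℝ))
        linarith
      rw [div_le_iff₀ (by positivity)]
      have e6 : 8 * B * (1 / ((n + 1 : ℕ) : ℝ)) * ((n + 1 : ℕ) : ℝ) ^ 2 = 8 * B * ((n + 1 : ℕ) : ℝ) := by
        have : ((n + 1 : ℕ) : ℝ) ≠ 0 := by linarith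
        field_simp
      rw [e6]
      exact mul_le_mul_of_nonneg_left h7 (by positivity)
    have b2 : |∑ n ∈ range M, (g (n + 1 + 1) - (H (Real.log ((n + 2 : ℕ) : ℝ)) - H (Real.log ((n + 1 : ℕ) : ℝ))))| ≤
        8 * B * (1 + Real.log ((M + 1 : ℕ) : ℝ)) := by
      refine (Finset.abs_sum_le_sum_abs _ _).trans ((Finset.sum_le_sum b1).trans ?_)
      rw [← Finset.mul_sum]
      refine mul_le_mul_of_nonneg_left ?_ (by positivity)
      have h3 := sum_inv M
      rcases Nat.eq_zero_or_pos M with h4 | h4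
      · subst h4
        simp
      · have h5 : Real.log M ≤ Real.log ((M + 1 : ℕ) : ℝ) :=
          Real.log_le_log (by exact_mod_cast h4) (by push_cast; linarith)
        linarith
    refine (abs_sub _ _).trans ?_
    have := abs_add_le (∑ n ∈ range M, (g (n + 1 + 1) - (H (Real.log ((n + 2 : ℕ) : ℝ)) - H (Real.log ((n + 1 : ℕ) : ℝ))))) (h 0)
    linarith
  -- conclusion
  obtain ⟨D, hD⟩ : ∃ D : ℝ, D = 9 * B + C0 + |h 0| + |H 0| := ⟨_, rfl⟩
  have hD0 : 0 ≤ D := by rw [hD]; positivity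
  obtain ⟨N1, hN1⟩ : ∃ N1 : ℕ, ∀ N : ℕ, N1 ≤ N → 1 + 4 * D / ε ≤ Real.log N := by
    have h3 := (Real.tendsto_log_atTop.comp tendsto_natCast_atTop_atTop).eventually_ge_atTop (1 + 4 * D / ε)
    exact eventually_atTop.1 h3
  refine ⟨max N1 1, fun N hN => ?_⟩
  have hN2 : 1 ≤ N := (le_max_right _ _).trans hN
  have hl := hN1 N ((le_max_left _ _).trans hN)
  have hq : 0 ≤ 4 * D / ε := by positivity
  have hl1 : 1 ≤ Real.log N := by linarith
  have e1 : ∑ p ∈ (range (N + 1)).filter Nat.Prime, Real.log p * (h (Real.log p) / p) =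
      ∑ n ∈ range N, lp (n + 1) * g (n + 1) := by
    rw [hg]
    exact sum_primes (fun n => h (Real.log n) / n) N
  rw [e1]
  have e2 : ∑ n ∈ range N, lp (n + 1) * g (n + 1) - H (Real.log N) =
      (∑ n ∈ range N, lp (n + 1) * g (n + 1) - ∑ n ∈ range N, g (n + 1)) + (∑ n ∈ range N, g (n + 1) - H (Real.log N)) := by
    ring
  rw [e2]
  refine (abs_add_le _ _).trans ((add_le_add (h1 N hN2) (h2 N hN2)).trans ?_)
  have h3 : 4 * B * δ * (1 + Real.log N) ^ 2 ≤ ε / 2 * Real.log N ^ 2 := by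
    have h4 : 4 * B * δ ≤ ε / 8 := by
      rw [hδ]
      have e3 : 4 * B * (ε / (32 * (B + 1))) = ε / 8 * (B / (B + 1)) := by
        field_simp
        ring
      rw [e3]
      have h5 : B / (B + 1) ≤ 1 := by
        rw [div_le_one (by linarith)]
        linarith
      nlinarith
    have h5 : (1 + Real.log N) ^ 2 ≤ 4 * Real.log N ^ 2 := by nlinarith
    calc 4 * B * δ * (1 + Real.log N) ^ 2 ≤ ε / 8 * (4 * Real.log N ^ 2) :=
          mul_le_mul h4 h5 (by positivity) (by positivity)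
      _ = _ := by ring
  have h6 : B * (1 + Real.log N) + C0 + (|h 0| + |H 0| + 8 * B * (1 + Real.log N)) ≤ ε / 2 * Real.log N ^ 2 := by
    have h7 : B * (1 + Real.log N) + C0 + (|h 0| + |H 0| + 8 * B * (1 + Real.log N)) ≤ D * (2 * Real.log N) := by
      rw [hD]
      have p1 : 0 ≤ |h 0| := abs_nonneg _
      have p2 : 0 ≤ |H 0| := abs_nonneg _
      nlinarith
    have h8 : 4 * D ≤ ε * Real.log N := by
      have : 4 * D / ε ≤ Real.log N := by linarith
      rw [div_le_iff₀ hε] at this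
      linarith
    nlinarith
  linarith

end Pool.Agent.U62.CL
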